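import Mathlib

set_option autoImplicit false

namespace Pool.Agent.Results.MP_afce15_co.ExponentialOrder

/-- A finite set of triples (row, column, symbol). -/
abbrev Triples := Finset (ℕ × ℕ × ℕ)

/-- `P` is a partial latin square: any two coordinates of a triple in `P` determine the third. -/
def IsPLS (P : Triples) : Prop :=
  (∀ r c s s', (r, c, s) ∈ P → (r, c, s') ∈ P → s = s') ∧
  (∀ r c c' s, (r, c, s) ∈ P → (r, c', s) ∈ P → c = c') ∧
  (∀ r r' c s, (r, c, s) ∈ P → (r', c, s) ∈ P → r = r')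

/-- `(W, B)` is a latin bitrade. -/
structure IsBitrade (W B : Triples) : Prop where
  plsW : IsPLS W
  plsB : IsPLS B
  nonemptyW : W.Nonempty
  nonemptyB : B.Nonempty
  disj : W ∩ B = ∅
  cells : ∀ r c, (∃ s, (r, c, s) ∈ W) ↔ (∃ s, (r, c, s) ∈ B)
  rows : ∀ r s, (∃ c, (r, c, s) ∈ W) ↔ (∃ c, (r, c, s) ∈ B)
  cols : ∀ c s, (∃ r, (r, c, s) ∈ W) ↔ (∃ r, (r, c, s) ∈ B)

/-- `P` embeds in the abelian group `G`: there are maps from the rows, columns and symbols of `P`
to `G`, each injective, with `α r + β c = γ s` for every `(r, c, s) ∈ P`. -/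
def Embeds (P : Triples) (G : Type) [AddCommGroup G] : Prop :=
  ∃ α β γ : ℕ → G,
    Set.InjOn α {r | ∃ c s, (r, c, s) ∈ P} ∧
    Set.InjOn β {c | ∃ r s, (r, c, s) ∈ P} ∧
    Set.InjOn γ {s | ∃ r c, (r, c, s) ∈ P} ∧
    ∀ r c s, (r, c, s) ∈ P → α r + β c = γ s

/-- The orders of the finite abelian groups in which both `W` and `B` embed. -/
def commonOrders (W B : Triples) : Set ℕ :=
  {N | ∃ (G : Type) (_ : AddCommGroup G), Finite G ∧ Nat.card G = N ∧ Embeds W G ∧ Embeds B G}

/-- The least order of a finite abelian group in which both `W` and `B` embed (meaningful when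
`commonOrders W B` is nonempty, i.e. when `m(W, B) < ∞`). -/
noncomputable def m (W B : Triples) : ℕ := sInf (commonOrders W B)

/-- The first mate. -/
def W (k : ℕ) : Triples :=
  {(k, k, 0)} ∪ ((Finset.range k).image (fun j => (j, k, j + 1)) ∪
    ((Finset.range k).image (fun j => (k, j, j + 1)) ∪ (Finset.range k).image (fun j => (j, j, j))))

/-- The second mate. -/
def B (k : ℕ) : Triples :=
  {(k, k, k)} ∪ ((Finset.range k).image (fun j => (j, k, j)) ∪
    ((Finset.range k).image (fun j => (k, j, j)) ∪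
      (Finset.range k).image (fun j => (j, j, j + 1))))

lemma mem_W (k r c s : ℕ) : (r, c, s) ∈ W k ↔
    (r = k ∧ c = k ∧ s = 0) ∨ (r < k ∧ c = k ∧ s = r + 1) ∨ (r = k ∧ c < k ∧ s = c + 1) ∨
      (r < k ∧ c = r ∧ s = r) := by
  simp only [W, Finset.mem_union, Finset.mem_singleton, Finset.mem_image, Finset.mem_range,
    Prod.mk.injEq]
  constructor
  · rintro (h | ⟨j, hj, rfl, rfl, rfl⟩ | ⟨j, hj, rfl, rfl, rfl⟩ | ⟨j, hj, rfl, rfl, rfl⟩)
    · exact Or.inl h
    · exact Or.inr (Or.inl ⟨hj, rfl, rfl⟩)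
    · exact Or.inr (Or.inr (Or.inl ⟨rfl, hj, rfl⟩))
    · exact Or.inr (Or.inr (Or.inr ⟨hj, rfl, rfl⟩))
  · rintro (h | ⟨h1, h2, h3⟩ | ⟨h1, h2, h3⟩ | ⟨h1, h2, h3⟩)
    · exact Or.inl h
    · exact Or.inr (Or.inl ⟨r, h1, rfl, h2.symm, h3.symm⟩)
    · exact Or.inr (Or.inr (Or.inl ⟨c, h2, h1.symm, rfl, h3.symm⟩))
    · exact Or.inr (Or.inr (Or.inr ⟨r, h1, rfl, h2.symm, h3.symm⟩))

lemma mem_B (k r c s : ℕ) : (r, c, s) ∈ B k ↔
    (r = k ∧ c = k ∧ s = k) ∨ (r < k ∧ c = k ∧ s = r) ∨ (r = k ∧ c < k ∧ s = c) ∨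
      (r < k ∧ c = r ∧ s = r + 1) := by
  simp only [B, Finset.mem_union, Finset.mem_singleton, Finset.mem_image, Finset.mem_range,
    Prod.mk.injEq]
  constructor
  · rintro (h | ⟨j, hj, rfl, rfl, rfl⟩ | ⟨j, hj, rfl, rfl, rfl⟩ | ⟨j, hj, rfl, rfl, rfl⟩)
    · exact Or.inl h
    · exact Or.inr (Or.inl ⟨hj, rfl, rfl⟩)
    · exact Or.inr (Or.inr (Or.inl ⟨rfl, hj, rfl⟩))
    · exact Or.inr (Or.inr (Or.inr ⟨hj, rfl, rfl⟩))
  · rintro (h | ⟨h1, h2, h3⟩ | ⟨h1, h2, h3⟩ | ⟨h1, h2, h3⟩)
    · exact Or.inl h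
    · exact Or.inr (Or.inl ⟨r, h1, rfl, h2.symm, h3.symm⟩)
    · exact Or.inr (Or.inr (Or.inl ⟨c, h2, h1.symm, rfl, h3.symm⟩))
    · exact Or.inr (Or.inr (Or.inr ⟨r, h1, rfl, h2.symm, h3.symm⟩))

lemma bitrade (k : ℕ) (hk : 1 ≤ k) : IsBitrade (W k) (B k) where
  plsW := by
    refine ⟨?_, ?_, ?_⟩
    · intro r c s s' h1 h2; rw [mem_W] at h1 h2; omega
    · intro r c c' s h1 h2; rw [mem_W] at h1 h2; omega
    · intro r r' c s h1 h2; rw [mem_W] at h1 h2; omega
  plsB := by
    refine ⟨?_, ?_, ?_⟩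
    · intro r c s s' h1 h2; rw [mem_B] at h1 h2; omega
    · intro r c c' s h1 h2; rw [mem_B] at h1 h2; omega
    · intro r r' c s h1 h2; rw [mem_B] at h1 h2; omega
  nonemptyW := ⟨(k, k, 0), by rw [mem_W]; omega⟩
  nonemptyB := ⟨(k, k, k), by rw [mem_B]; omega⟩
  disj := by
    ext ⟨r, c, s⟩
    rw [Finset.mem_inter, mem_W, mem_B]
    simp only [Finset.notMem_empty, iff_false]
    omega
  cells := by
    intro r c
    constructor
    · rintro ⟨s, h⟩
      rw [mem_W] at h
      by_cases h1 : r = k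
      · by_cases h2 : c = k
        · exact ⟨k, by rw [mem_B]; omega⟩
        · exact ⟨c, by rw [mem_B]; omega⟩
      · by_cases h2 : c = k
        · exact ⟨r, by rw [mem_B]; omega⟩
        · exact ⟨r + 1, by rw [mem_B]; omega⟩
    · rintro ⟨s, h⟩
      rw [mem_B] at h
      by_cases h1 : r = k
      · by_cases h2 : c = k
        · exact ⟨0, by rw [mem_W]; omega⟩
        · exact ⟨c + 1, by rw [mem_W]; omega⟩
      · by_cases h2 : c = k
        · exact ⟨r + 1, by rw [mem_W]; omega⟩
        · exact ⟨r, by rw [mem_W]; omega⟩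
  rows := by
    intro r s
    constructor
    · rintro ⟨c, h⟩
      rw [mem_W] at h
      by_cases h1 : r = k
      · by_cases h2 : s = k
        · exact ⟨k, by rw [mem_B]; omega⟩
        · exact ⟨s, by rw [mem_B]; omega⟩
      · by_cases h2 : s = r
        · exact ⟨k, by rw [mem_B]; omega⟩
        · exact ⟨r, by rw [mem_B]; omega⟩
    · rintro ⟨c, h⟩
      rw [mem_B] at h
      by_cases h1 : r = k
      · by_cases h2 : s = 0
        · exact ⟨k, by rw [mem_W]; omega⟩
        · exact ⟨s - 1, by rw [mem_W]; omega⟩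
      · by_cases h2 : s = r
        · exact ⟨r, by rw [mem_W]; omega⟩
        · exact ⟨k, by rw [mem_W]; omega⟩
  cols := by
    intro c s
    constructor
    · rintro ⟨r, h⟩
      rw [mem_W] at h
      by_cases h1 : c = k
      · by_cases h2 : s = k
        · exact ⟨k, by rw [mem_B]; omega⟩
        · exact ⟨s, by rw [mem_B]; omega⟩
      · by_cases h2 : s = c
        · exact ⟨k, by rw [mem_B]; omega⟩
        · exact ⟨c, by rw [mem_B]; omega⟩
    · rintro ⟨r, h⟩
      rw [mem_B] at h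
      by_cases h1 : c = k
      · by_cases h2 : s = 0
        · exact ⟨k, by rw [mem_W]; omega⟩
        · exact ⟨s - 1, by rw [mem_W]; omega⟩
      · by_cases h2 : s = c
        · exact ⟨c, by rw [mem_W]; omega⟩
        · exact ⟨k, by rw [mem_W]; omega⟩

lemma card_W_le (k : ℕ) : (W k).card ≤ 3 * k + 1 := by
  have h1 : ((Finset.range k).image (fun j => (j, k, j + 1))).card ≤ k :=
    Finset.card_image_le.trans (Finset.card_range k).le
  have h2 : ((Finset.range k).image (fun j => (k, j, j + 1))).card ≤ k :=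
    Finset.card_image_le.trans (Finset.card_range k).le
  have h3 : ((Finset.range k).image (fun j => (j, j, j))).card ≤ k :=
    Finset.card_image_le.trans (Finset.card_range k).le
  have h4 := Finset.card_union_le ({(k, k, 0)} : Triples)
    ((Finset.range k).image (fun j => (j, k, j + 1)) ∪
    ((Finset.range k).image (fun j => (k, j, j + 1)) ∪ (Finset.range k).image (fun j => (j, j, j))))
  have h5 := Finset.card_union_le ((Finset.range k).image (fun j => (j, k, j + 1)))
    ((Finset.range k).image (fun j => (k, j, j + 1)) ∪ (Finset.range k).image (fun j => (j, j, j)))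
  have h6 := Finset.card_union_le ((Finset.range k).image (fun j => (k, j, j + 1)))
    ((Finset.range k).image (fun j => (j, j, j)))
  have h7 : ({(k, k, 0)} : Triples).card = 1 := Finset.card_singleton _
  unfold W
  omega

lemma le_card_W (k : ℕ) : k ≤ (W k).card := by
  have h1 : ((Finset.range k).image (fun j => (j, j, j))).card = k := by
    rw [Finset.card_image_of_injective, Finset.card_range]
    intro a b h
    exact congrArg Prod.fst h
  rw [← h1]
  conv_rhs => rw [h1]
  apply Finset.card_le_card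
  intro t ht
  unfold W
  simp only [Finset.mem_union]
  exact Or.inr (Or.inr (Or.inr ht))

lemma pow_inj (k a b : ℕ) (ha : a ≤ k) (hb : b ≤ k)
    (h : ((2 : ZMod (2 ^ k)) ^ a) = 2 ^ b) : a = b := by
  have key : ∀ a b : ℕ, a < b → b ≤ k → ((2 : ZMod (2 ^ k)) ^ a) ≠ 2 ^ b := by
    intro a b hab hb h
    have h1 : (((2 ^ a : ℕ)) : ZMod (2 ^ k)) = ((2 ^ b : ℕ) : ZMod (2 ^ k)) := by
      push_cast; exact h
    rw [ZMod.natCast_eq_natCast_iff'] at h1
    have hlt : 2 ^ a < 2 ^ k := Nat.pow_lt_pow_right (by norm_num) (by omega)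
    rw [Nat.mod_eq_of_lt hlt] at h1
    have hpos : 0 < 2 ^ a := by positivity
    rcases Nat.lt_or_ge b k with hbk | hbk
    · rw [Nat.mod_eq_of_lt (Nat.pow_lt_pow_right (by norm_num) hbk)] at h1
      have := Nat.pow_right_injective (le_refl 2) h1
      omega
    · have : b = k := by omega
      subst this
      rw [Nat.mod_self] at h1
      omega
  rcases lt_trichotomy a b with h1 | h1 | h1
  · exact absurd h (key a b h1 hb)
  · exact h1
  · exact absurd h.symm (key b a h1 ha)

lemma two_pow_self (k : ℕ) : (2 : ZMod (2 ^ k)) ^ k = 0 := by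
  have : ((2 ^ k : ℕ) : ZMod (2 ^ k)) = 0 := ZMod.natCast_self _
  push_cast at this
  exact this

lemma embeds_B (k : ℕ) : Embeds (B k) (ZMod (2 ^ k)) := by
  refine ⟨fun j => 2 ^ j, fun j => 2 ^ j, fun j => 2 ^ j, ?_, ?_, ?_, ?_⟩
  · rintro a ⟨c, s, h⟩ b ⟨c', s', h'⟩ hab
    rw [mem_B] at h h'
    exact pow_inj k a b (by omega) (by omega) hab
  · rintro a ⟨c, s, h⟩ b ⟨c', s', h'⟩ hab
    rw [mem_B] at h h'
    exact pow_inj k a b (by omega) (by omega) hab
  · rintro a ⟨c, s, h⟩ b ⟨c', s', h'⟩ hab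
    rw [mem_B] at h h'
    exact pow_inj k a b (by omega) (by omega) hab
  · intro r c s h
    have h2 := two_pow_self k
    rw [mem_B] at h
    rcases h with ⟨rfl, rfl, rfl⟩ | ⟨h1, rfl, rfl⟩ | ⟨rfl, h1, rfl⟩ | ⟨h1, rfl, rfl⟩
    · simp only [h2, add_zero]
    · simp only [h2, add_zero]
    · simp only [h2, zero_add]
    · simp only
      ring

lemma embeds_W (k : ℕ) : Embeds (W k) (ZMod (2 ^ k)) := by
  have h2 := two_pow_self k
  have hα : Set.InjOn (fun j : ℕ => if j < k then (2 : ZMod (2 ^ k)) ^ (k - 1 - j) else 0)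
      {j | j ≤ k} := by
    intro a ha b hb hab
    simp only [Set.mem_ofPred_eq] at ha hb
    simp only at hab
    by_cases h1 : a < k <;> by_cases h3 : b < k
    · rw [if_pos h1, if_pos h3] at hab
      have := pow_inj k _ _ (by omega) (by omega) hab
      omega
    · rw [if_pos h1, if_neg h3, ← h2] at hab
      have := pow_inj k _ _ (by omega) (by omega) hab
      omega
    · rw [if_neg h1, if_pos h3, ← h2] at hab
      have := pow_inj k _ _ (by omega) (by omega) hab
      omega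
    · omega
  refine ⟨fun j => if j < k then 2 ^ (k - 1 - j) else 0,
    fun j => if j < k then 2 ^ (k - 1 - j) else 0, fun j => 2 ^ (k - j), ?_, ?_, ?_, ?_⟩
  · rintro a ⟨c, s, h⟩ b ⟨c', s', h'⟩ hab
    rw [mem_W] at h h'
    exact hα (show a ≤ k by omega) (show b ≤ k by omega) hab
  · rintro a ⟨c, s, h⟩ b ⟨c', s', h'⟩ hab
    rw [mem_W] at h h'
    exact hα (show a ≤ k by omega) (show b ≤ k by omega) hab
  · rintro a ⟨c, s, h⟩ b ⟨c', s', h'⟩ hab
    rw [mem_W] at h h'
    have := pow_inj k _ _ (by omega) (by omega) hab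
    omega
  · intro r c s h
    rw [mem_W] at h
    rcases h with ⟨rfl, rfl, rfl⟩ | ⟨h1, rfl, rfl⟩ | ⟨rfl, h1, rfl⟩ | ⟨h1, rfl, rfl⟩
    · simp only [lt_irrefl, if_false, add_zero, Nat.sub_zero, h2]
    · simp only [lt_irrefl, if_false, add_zero, if_pos h1]
      congr 1
      omega
    · simp only [lt_irrefl, if_false, zero_add, if_pos h1]
      congr 1
      omega
    · simp only [if_pos h1]
      have : k - s = (k - 1 - s) + 1 := by omega
      rw [this, pow_succ]
      ring

lemma card_ge (k : ℕ) (hk : 1 ≤ k) (G : Type) [AddCommGroup G] [Finite G]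
    (h : Embeds (B k) G) : 2 ^ k ≤ Nat.card G := by
  obtain ⟨α, β, γ, -, -, hγ, hrel⟩ := h
  have e0 := hrel k k k (by rw [mem_B]; omega)
  have e1 : ∀ j, j < k → α j + β k = γ j := fun j hj => hrel j k j (by rw [mem_B]; omega)
  have e2 : ∀ j, j < k → α k + β j = γ j := fun j hj => hrel k j j (by rw [mem_B]; omega)
  have e3 : ∀ j, j < k → α j + β j = γ (j + 1) := fun j hj =>
    hrel j j (j + 1) (by rw [mem_B]; omega)
  have step : ∀ j, j < k → γ (j + 1) - γ k = 2 • (γ j - γ k) := by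
    intro j hj
    rw [← e3 j hj, two_nsmul]
    nth_rewrite 1 [← e0]
    have a1 : γ j = α j + β k := (e1 j hj).symm
    have a2 : γ j = α k + β j := (e2 j hj).symm
    have : α j + β j - (α k + β k) = (α j + β k - (α k + β k)) + (α k + β j - (α k + β k)) := by
      abel
    rw [this, ← a1, ← a2, e0]
  have all : ∀ j, j ≤ k → γ j - γ k = (2 ^ j) • (γ 0 - γ k) := by
    intro j
    induction j with
    | zero => intro _; simp
    | succ j ih =>
      intro hj
      rw [step j (by omega), ih (by omega), ← mul_smul, pow_succ, mul_comm]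
  have hord : addOrderOf (γ 0 - γ k) = 2 ^ ((k - 1) + 1) := by
    have : Fact (Nat.Prime 2) := ⟨Nat.prime_two⟩
    apply addOrderOf_eq_prime_pow
    · rw [← all (k - 1) (by omega)]
      intro h0
      have h1 := hγ (show k - 1 ∈ {s | ∃ r c, (r, c, s) ∈ B k} from
        ⟨k - 1, k, by rw [mem_B]; omega⟩)
        (show k ∈ {s | ∃ r c, (r, c, s) ∈ B k} from ⟨k, k, by rw [mem_B]; omega⟩)
        (sub_eq_zero.mp h0)
      omega
    · have : k - 1 + 1 = k := by omega
      rw [this, ← all k le_rfl, sub_self]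
  have hk' : k - 1 + 1 = k := by omega
  rw [hk'] at hord
  rw [← hord]
  exact Nat.le_of_dvd Nat.card_pos (addOrderOf_dvd_natCard _)

/-- The order of a finite abelian group that embeds both mates of a latin bitrade can be forced to
grow exponentially in the size of the bitrade. -/
theorem result :
    ∃ c : ℝ, 1 < c ∧ ∃ W B : ℕ → Triples,
      (∀ n, IsBitrade (W n) (B n)) ∧
      Filter.Tendsto (fun n => (W n).card) Filter.atTop Filter.atTop ∧
      (∀ n, (commonOrders (W n) (B n)).Nonempty) ∧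
      ∀ n, c ^ (W n).card ≤ (m (W n) (B n) : ℝ) := by
  have hc1 : (1 : ℝ) < (2 : ℝ) ^ (1 / 4 : ℝ) := Real.one_lt_rpow (by norm_num) (by norm_num)
  have hne : ∀ n, (commonOrders (W (n + 1)) (B (n + 1))).Nonempty := fun n =>
    ⟨2 ^ (n + 1), ZMod (2 ^ (n + 1)), inferInstance,
      haveI : NeZero (2 ^ (n + 1)) := ⟨by positivity⟩
      inferInstance, Nat.card_zmod _, embeds_W _, embeds_B _⟩
  refine ⟨(2 : ℝ) ^ (1 / 4 : ℝ), hc1, fun n => W (n + 1), fun n => B (n + 1),
    fun n => bitrade _ (by omega), ?_, hne, ?_⟩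
  · apply Filter.tendsto_atTop_mono (fun n => ?_) Filter.tendsto_id
    exact (Nat.le_succ n).trans (le_card_W (n + 1))
  · intro n
    have h1 : 2 ^ (n + 1) ≤ m (W (n + 1)) (B (n + 1)) := by
      obtain ⟨G, hG, hfin, hcard, -, hB⟩ := Nat.sInf_mem (hne n)
      unfold m
      rw [← hcard]
      exact card_ge (n + 1) (by omega) G hB
    calc ((2 : ℝ) ^ (1 / 4 : ℝ)) ^ (W (n + 1)).card
        ≤ ((2 : ℝ) ^ (1 / 4 : ℝ)) ^ (4 * (n + 1)) :=
          pow_le_pow_right₀ hc1.le (by have := card_W_le (n + 1); omega)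
      _ = (2 : ℝ) ^ (n + 1) := by
          rw [pow_mul]
          congr 1
          rw [← Real.rpow_natCast, ← Real.rpow_mul (by norm_num)]
          norm_num
      _ ≤ (m (W (n + 1)) (B (n + 1)) : ℝ) := by exact_mod_cast h1

end Pool.Agent.Results.MP_afce15_co.ExponentialOrder
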